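import Pool.Agent.H30.EE.TargetsP
import Pool.Agent.H27.LV.Gen
import Pool.Agent.H27.LV.Curve

/-!
# MP_70ba79_ag, board ee_modules, row DSP: properties of `dS`
-/

set_option autoImplicit false

namespace Pool.Agent.H69.EE

open MvPolynomial SC Pool.Agent.H27.LV Pool.Agent.H17.VG Pool.Agent.H30.EE

section

variable {K : Type} [Field K] {n : ℕ}

private theorem frL_injective (d : ℕ) : Function.Injective (frL K n d) := by
  rw [← LinearMap.ker_eq_bot, LinearMap.ker_eq_bot']
  intro t ht
  exact frm_zero ht

private theorem range_frL' (d : ℕ) : LinearMap.range (frL K n d) = Sd K n d := by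
  apply le_antisymm
  · rintro _ ⟨t, rfl⟩
    exact (mem_homogeneousSubmodule d _).2 (frm_homog t)
  · intro G hG
    exact ⟨fun M => coeff (fs M.1) G, frm_coeff ((mem_homogeneousSubmodule d G).1 hG)⟩

private theorem finrank_comap {d : ℕ} {W : Submodule K (MvPolynomial (Fin (n + 1)) K)}
    (hW : W ≤ Sd K n d) : Module.finrank K (W.comap (frL K n d)) = Module.finrank K W := by
  have h1 : (W.comap (frL K n d)).map (frL K n d) = W := by
    rw [Submodule.map_comap_eq, range_frL']
    exact inf_eq_right.2 hW
  have h2 := LinearEquiv.finrank_eq (Submodule.equivMapOfInjective (frL K n d)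
    (frL_injective d) (W.comap (frL K n d)))
  rw [h1] at h2
  exact h2

private theorem comap_sup {d : ℕ} {W W' : Submodule K (MvPolynomial (Fin (n + 1)) K)}
    (hW : W ≤ Sd K n d) (hW' : W' ≤ Sd K n d) :
    (W ⊔ W').comap (frL K n d) = W.comap (frL K n d) ⊔ W'.comap (frL K n d) := by
  apply le_antisymm
  · intro c hc
    rw [Submodule.mem_comap, Submodule.mem_sup] at hc
    obtain ⟨w, hw, w', hw', h⟩ := hc
    have h1 := hW hw
    have h2 := hW' hw'
    rw [← range_frL' d] at h1 h2
    obtain ⟨a, rfl⟩ := h1
    obtain ⟨b, rfl⟩ := h2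
    rw [← map_add] at h
    rw [← frL_injective d h]
    exact Submodule.add_mem_sup hw hw'
  · exact sup_le (Submodule.comap_mono le_sup_left) (Submodule.comap_mono le_sup_right)

end

section

variable {k K : Type} [Field k] [Field K] [Algebra k K] {n : ℕ}

private theorem mo_mnr_one {ι : Type} (v : DV k K) (u : Fin 1 → ι → K) :
    mo v (mnr u) = mo v (u 0) := by
  unfold mo mnr
  congr 1
  ext a
  simp only [Set.mem_ofPred_eq, Matrix.det_fin_one, Matrix.of_apply]
  constructor
  · rintro ⟨J, h⟩
    exact ⟨J 0, h⟩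
  · rintro ⟨i, h⟩
    exact ⟨fun _ => i, h⟩

private theorem ge_prod (v : DV k K) {x : Fin (n + 1) → K} {t : ℤ} (h : ∀ i, ge v t (x i))
    (f : Fin (n + 1) → ℕ) (s : Finset (Fin (n + 1))) :
    ge v ((∑ i ∈ s, f i : ℕ) * t) (∏ i ∈ s, x i ^ f i) := by
  classical
  have hpow : ∀ (i : Fin (n + 1)) (m : ℕ), ge v (m * t) (x i ^ m) := by
    intro i m
    induction m with
    | zero =>
      rw [pow_zero, Nat.cast_zero, zero_mul]
      exact ge_one v
    | succ m ih =>
      rw [pow_succ, Nat.cast_succ, add_mul, one_mul]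
      exact ge.mul ih (h i)
  induction s using Finset.induction_on with
  | empty =>
    rw [Finset.prod_empty, Finset.sum_empty, Nat.cast_zero, zero_mul]
    exact ge_one v
  | insert a s ha ih =>
    rw [Finset.prod_insert ha, Finset.sum_insert ha, Nat.cast_add, add_mul]
    exact ge.mul (hpow a (f a)) ih

private theorem ord_pow' (v : DV k K) {x : K} (hx : x ≠ 0) (m : ℕ) :
    v.ord (x ^ m) = m * v.ord x := by
  induction m with
  | zero => rw [pow_zero, v.ord_one, Nat.cast_zero, zero_mul]
  | succ m ih =>
    rw [pow_succ, v.ord_mul' (pow_ne_zero m hx) hx, ih, Nat.cast_succ]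
    ring

/-- the monomial `d e_i` -/
private def sgl (d : ℕ) (i : Fin (n + 1)) : Mon (n + 1) d :=
  ⟨Pi.single i d, by rw [Finset.sum_pi_single']; simp⟩

private theorem mv_sgl (d : ℕ) (i : Fin (n + 1)) (x : Fin (n + 1) → K) :
    mv d x (sgl d i) = x i ^ d := by
  unfold mv sgl
  rw [Finset.prod_eq_single i]
  · simp
  · intro j _ hj
    simp [Pi.single_eq_of_ne hj]
  · intro h
    exact absurd (Finset.mem_univ i) h

private theorem mo_mv (hMO : T_MO) (v : DV k K) (d : ℕ) (x : Fin (n + 1) → K) (hx : x ≠ 0) :
    mo v (mv d x) = d * mo v x := by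
  obtain ⟨h1, ⟨i, hi, h2⟩, -⟩ := (hMO k K v _ x).2 hx
  have hne : mv d x ≠ 0 := by
    intro h
    have h3 := congrFun h (sgl d i)
    rw [mv_sgl] at h3
    exact pow_ne_zero d hi h3
  obtain ⟨h4, -, h5, -⟩ := (hMO k K v _ (mv d x)).2 hne
  apply le_antisymm
  · have h6 := h4 (sgl d i)
    rw [mv_sgl] at h6
    rcases h6 with h6 | h6
    · exact absurd h6 (pow_ne_zero d hi)
    · rw [ord_pow' v hi, h2] at h6
      exact h6
  · apply h5
    intro M
    have h6 := ge_prod v h1 M.1 Finset.univ
    rw [M.2] at h6
    exact h6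

end

theorem pf_DSP (hMO : T_MO) (hHG : T_HG) (_hCBM : T_CBM) (_hDGB : T_DGB) (hDG0 : T_DG0)
    (hSUP : T_SUP) (hDUA : Pool.Agent.H30.EE.T_DUA) : T_DSP := by
  intro k K _ _ _ _ _ _ htr n d
  obtain ⟨g1, g2, g3, -, g5⟩ := hDG0 k K htr (Mon (n + 1) d)
  refine ⟨?_, ?_, fun W => g3 _, ?_, ?_, ?_⟩
  · unfold dS
    rw [Submodule.comap_bot, LinearMap.ker_eq_bot.2 (frL_injective d)]
    exact g1
  · unfold dS
    have h1 : (Sd K n d).comap (frL K n d) = ⊤ := by
      rw [eq_top_iff]
      intro t _
      exact (mem_homogeneousSubmodule d _).2 (frm_homog t)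
    rw [h1]
    exact g2
  · intro W hW W' hW'
    unfold dS
    rw [comap_sup hW hW', Submodule.comap_inf]
    exact hSUP k K htr _ _ _
  · intro G hG hh
    unfold dS hF
    have hfr : frL K n d (fun M : Mon (n + 1) d => coeff (fs M.1) G) = G := frm_coeff hh
    have h1 : (Submodule.span K {G}).comap (frL K n d) =
        Submodule.span K {fun M : Mon (n + 1) d => coeff (fs M.1) G} := by
      ext c
      rw [Submodule.mem_comap, Submodule.mem_span_singleton, Submodule.mem_span_singleton]
      constructor
      · rintro ⟨a, ha⟩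
        refine ⟨a, frL_injective d ?_⟩
        rw [map_smul, hfr, ha]
      · rintro ⟨a, rfl⟩
        exact ⟨a, by rw [map_smul, hfr]⟩
    rw [h1]
    apply g5
    intro h0
    apply hG
    rw [← hfr, h0, map_zero]
  · intro x hx
    set u : Fin 1 → Mon (n + 1) d → K := fun _ => mv d x with hu
    obtain ⟨i, hi⟩ := Function.ne_iff.1 hx
    have hne : mv d x ≠ 0 := by
      intro h
      have h3 := congrFun h (sgl d i)
      rw [mv_sgl] at h3
      exact pow_ne_zero d hi h3
    have hli : LinearIndependent K u := by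
      rw [linearIndependent_unique_iff]
      exact hne
    have hcm : (Md d x).comap (frL K n d) = LinearMap.ker (Matrix.mulVecLin (Matrix.of u)) := by
      ext t
      rw [Submodule.mem_comap, LinearMap.mem_ker, Matrix.mulVecLin_apply]
      have h2 : eval x (frL K n d t) = Matrix.mulVec (Matrix.of u) t 0 := by
        have h3 : frL K n d t = frm t := rfl
        rw [h3, eval_frm, Matrix.mulVec, dotProduct]
        refine Finset.sum_congr rfl fun M _ => ?_
        rw [Matrix.of_apply, mul_comm]
      constructor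
      · rintro ⟨-, h4⟩
        rw [SetLike.mem_coe, LinearMap.mem_ker, AlgHom.toLinearMap_apply] at h4
        funext j
        rw [Subsingleton.elim j 0, ← h2]
        rw [← coe_aeval_eq_eval]
        exact h4
      · intro h4
        refine ⟨(mem_homogeneousSubmodule d _).2 (frm_homog t), ?_⟩
        rw [SetLike.mem_coe, LinearMap.mem_ker, AlgHom.toLinearMap_apply]
        have h5 := congrFun h4 0
        rw [← h2, ← coe_aeval_eq_eval] at h5
        exact h5
    constructor
    · unfold dS
      rw [hcm, hDUA k K htr _ 1 u hli]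
      unfold hgt
      have hfin : (Function.support fun v : DV k K => mo v x).Finite :=
        (hHG k K htr _ x).1
      have h2 : ∀ v : DV k K, mo v (mnr u) = (d : ℤ) * mo v x := fun v => by
        rw [mo_mnr_one, mo_mv hMO v d x hx]
      rw [finsum_congr h2, ← mul_finsum (fun v : DV k K => mo v x) (d : ℤ)]
      ring
    · have hle : Md d x ≤ Sd K n d := inf_le_left
      rw [← finrank_comap hle, hcm, ← finrank_comap (le_refl (Sd K n d))]
      have h1 : (Sd K n d).comap (frL K n d) = ⊤ := by
        rw [eq_top_iff]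
        intro t _
        exact (mem_homogeneousSubmodule d _).2 (frm_homog t)
      rw [h1, finrank_top]
      have h2 := LinearMap.finrank_range_add_finrank_ker (Matrix.mulVecLin (Matrix.of u))
      have h3 : LinearMap.range (Matrix.mulVecLin (Matrix.of u)) = ⊤ := by
        rw [LinearMap.range_eq_top]
        intro c
        refine ⟨Pi.single (sgl d i) (c 0 / x i ^ d), ?_⟩
        funext j
        rw [Subsingleton.elim j 0, Matrix.mulVecLin_apply, Matrix.mulVec_single]
        simp only [MulOpposite.smul_eq_mul_unop, MulOpposite.unop_op, Pi.smul_apply,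
          Matrix.col_apply, Matrix.of_apply]
        rw [hu]
        simp only
        rw [mv_sgl]
        exact mul_div_cancel₀ _ (pow_ne_zero d hi)
      rw [h3, finrank_top, Module.finrank_fin_fun] at h2
      omega

end Pool.Agent.H69.EE
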