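import Pool.Agent.H30.EE.TargetsI
import Pool.Agent.H90.VG.DB
import Pool.Agent.H92.VG.GR
import Pool.Agent.H97.VG.EV

/-!
# MP_70ba79_ag, board ee_modules, row ILG: local estimate with the gain from the hypersurface
-/

set_option autoImplicit false

namespace Pool.Agent.H69.EE

open MvPolynomial SC Pool.Agent.H27.LV Pool.Agent.H17.VG Pool.Agent.H30.EE
open Pool.Agent.H90.VG (eval_dir euler_eval)

section

variable {R K : Type} [Field R] [Field K] [Algebra R K] {n r : ℕ}

/-- coordinates of the elements of `L` -/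
private theorem cht_coord {L : Submodule K (Fin (n + 1) → K)} {J : Fin (r + 1) → Fin (n + 1)}
    {z : Fin (r + 1) → Fin (n + 1) → K} (h : Cht L J z) {x : Fin (n + 1) → K} (hx : x ∈ L)
    (a : Fin (n + 1)) : x a = ∑ i, x (J i) * z i a := by
  rw [← h.span] at hx
  obtain ⟨c, hc⟩ := (Submodule.mem_span_range_iff_exists_fun K).1 hx
  have h1 : ∀ b, x b = ∑ i, c i * z i b := by
    intro b
    rw [← hc, Finset.sum_apply]
    rfl
  have h2 : ∀ l, x (J l) = c l := by
    intro l
    rw [h1]
    simp only [h.id, mul_ite, mul_one, mul_zero]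
    rw [Finset.sum_ite_eq']
    simp
  rw [h1 a]
  refine Finset.sum_congr rfl fun i _ => ?_
  rw [h2]

private theorem opV_coord {L : Submodule K (Fin (n + 1) → K)} {J : Fin (r + 1) → Fin (n + 1)}
    {z : Fin (r + 1) → Fin (n + 1) → K} (h : Cht L J z) {x : Fin (n + 1) → K} (hx : x ∈ L)
    (τ : Op R K n) (a : Fin (n + 1)) :
    opV τ x a = ∑ i, (τ.1 (x (J i)) * z i a + x (J i) * opV τ (z i) a) := by
  unfold opV
  have h1 : τ.1 (x a) = ∑ i, (τ.1 (x (J i)) * z i a + x (J i) * τ.1 (z i a)) := by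
    conv_lhs => rw [cht_coord h hx a]
    rw [map_sum]
    refine Finset.sum_congr rfl fun i _ => ?_
    rw [Derivation.leibniz, smul_eq_mul, smul_eq_mul]
    ring
  have h2 : ∑ j, τ.2 a j * x j = ∑ i, x (J i) * ∑ j, τ.2 a j * z i j := by
    have h3 : ∀ j, τ.2 a j * x j = ∑ i, x (J i) * (τ.2 a j * z i j) := by
      intro j
      conv_lhs => rw [cht_coord h hx j]
      rw [Finset.mul_sum]
      refine Finset.sum_congr rfl fun i _ => by ring
    rw [Finset.sum_congr rfl fun j _ => h3 j, Finset.sum_comm]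
    refine Finset.sum_congr rfl fun i _ => ?_
    rw [Finset.mul_sum]
  rw [h1, h2, ← Finset.sum_sub_distrib]
  refine Finset.sum_congr rfl fun i _ => by ring

private theorem fq_J {L : Submodule K (Fin (n + 1) → K)} {J : Fin (r + 1) → Fin (n + 1)}
    {z : Fin (r + 1) → Fin (n + 1) → K} (h : Cht L J z) (w : Fin (n + 1) → K) (l : Fin (r + 1)) :
    fq J z w (J l) = 0 := by
  unfold fq
  simp only [h.id, mul_ite, mul_one, mul_zero]
  rw [Finset.sum_ite_eq']
  simp

private theorem fq_opV {L : Submodule K (Fin (n + 1) → K)} {J : Fin (r + 1) → Fin (n + 1)}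
    {z : Fin (r + 1) → Fin (n + 1) → K} (h : Cht L J z) {x : Fin (n + 1) → K} (hx : x ∈ L)
    (τ : Op R K n) (a : Fin (n + 1)) :
    fq J z (opV τ x) a = ∑ i, x (J i) * fq J z (opV τ (z i)) a := by
  unfold fq
  have h1 : ∀ l, opV τ x (J l) = τ.1 (x (J l)) + ∑ i, x (J i) * opV τ (z i) (J l) := by
    intro l
    rw [opV_coord h hx, Finset.sum_add_distrib]
    congr 1
    simp only [h.id, mul_ite, mul_one, mul_zero]
    rw [Finset.sum_ite_eq']
    simp
  rw [opV_coord h hx]
  simp only [h1, add_mul, mul_sub, Finset.sum_add_distrib, Finset.sum_sub_distrib]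
  have h2 : ∑ l, (∑ i, x (J i) * opV τ (z i) (J l)) * z l a =
      ∑ i, x (J i) * ∑ l, opV τ (z i) (J l) * z l a := by
    simp only [Finset.sum_mul, Finset.mul_sum]
    rw [Finset.sum_comm]
    refine Finset.sum_congr rfl fun i _ => Finset.sum_congr rfl fun l _ => by ring
  rw [h2]
  ring

/-- the row combination -/
private theorem rho_eq {L : Submodule K (Fin (n + 1) → K)} {J : Fin (r + 1) → Fin (n + 1)}
    {z : Fin (r + 1) → Fin (n + 1) → K} (h : Cht L J z) {x : Fin (n + 1) → K} (hx : x ∈ L)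
    (g : Fin (n + 1) → K) (τ : Op R K n) :
    ∑ i, (∑ a, g a * z i a) * opV τ x (J i) +
      ∑ p : Fin (r + 1) × {j : Fin (n + 1) // ∀ i, J i ≠ j},
        x (J p.1) * g p.2.1 * fq J z (opV τ (z p.1)) p.2.1 = ∑ a, g a * opV τ x a := by
  classical
  have h1 : ∑ p : Fin (r + 1) × {j : Fin (n + 1) // ∀ i, J i ≠ j},
      x (J p.1) * g p.2.1 * fq J z (opV τ (z p.1)) p.2.1 =
      ∑ a, g a * fq J z (opV τ x) a := by
    rw [Fintype.sum_prod_type]
    rw [Finset.sum_comm]
    have h2 : ∀ a : {j : Fin (n + 1) // ∀ i, J i ≠ j},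
        ∑ i, x (J i) * g a.1 * fq J z (opV τ (z i)) a.1 = g a.1 * fq J z (opV τ x) a.1 := by
      intro a
      rw [fq_opV h hx, Finset.mul_sum]
      refine Finset.sum_congr rfl fun i _ => by ring
    rw [Finset.sum_congr rfl fun a _ => h2 a]
    rw [← Finset.sum_subtype (p := fun j => ∀ i, J i ≠ j)
      (Finset.univ.filter fun j => ∀ i, J i ≠ j) (by simp)
      (fun a => g a * fq J z (opV τ x) a)]
    refine Finset.sum_filter_of_ne fun a _ ha => ?_
    intro i hi
    apply ha
    rw [← hi, fq_J h, mul_zero]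
  rw [h1]
  have h2 : ∑ i, (∑ a, g a * z i a) * opV τ x (J i) =
      ∑ a, g a * ∑ i, opV τ x (J i) * z i a := by
    simp only [Finset.sum_mul, Finset.mul_sum]
    rw [Finset.sum_comm]
    refine Finset.sum_congr rfl fun i _ => Finset.sum_congr rfl fun l _ => by ring
  rw [h2, ← Finset.sum_add_distrib]
  refine Finset.sum_congr rfl fun a _ => ?_
  unfold fq
  ring

/-- a derivation which vanishes on the constants -/
private theorem opF_D {k : Type} [Field k] [Algebra k K] (D' : Derivation R K K)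
    (D : Derivation k K K) (h : ∀ z, D' z = D z) (G : MvPolynomial (Fin (n + 1)) k) :
    opF ((D', 0) : Op R K n) (up K G) = 0 := by
  unfold opF cD up
  rw [Finset.sum_eq_zero, zero_add, Finset.sum_eq_zero]
  · intro i _
    rw [Finset.sum_eq_zero, zero_mul]
    intro j _
    simp
  · intro m _
    rw [coeff_map]
    have : (((D', 0) : Op R K n)).1 = D' := rfl
    rw [this, h, Derivation.map_algebraMap, map_zero]

end

section

variable {k K : Type} [Field k] [Field K] [Algebra k K] [IsAlgClosed k] [CharZero k]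
  [Algebra.EssFiniteType k K]

/-- the orders of the partial derivatives -/
private theorem grad (hMO : T_MO) (htr : Algebra.trdeg k K = 1) {n e : ℕ}
    (F : MvPolynomial (Fin (n + 1)) k) (hF : F.IsHomogeneous (e + 1))
    (hsm : ∀ z : Fin (n + 1) → k, z ≠ 0 → ∃ j, eval z (pderiv j F) ≠ 0)
    (v : DV k K) (x : Fin (n + 1) → K) (hx : x ≠ 0) :
    (∀ j, ge v (e * mo v x) (eval x (pderiv j (up K F)))) ∧
    ∃ j, eval x (pderiv j (up K F)) ≠ 0 ∧
      v.ord (eval x (pderiv j (up K F))) = e * mo v x := by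
  obtain ⟨h1, ⟨p, hp, hpo⟩, -⟩ := (hMO k K v _ x).2 hx
  obtain ⟨y, hy⟩ : ∃ y : Fin (n + 1) → K, y = (x p)⁻¹ • x := ⟨_, rfl⟩
  have hyp : y p = 1 := by
    rw [hy, Pi.smul_apply, smul_eq_mul, inv_mul_cancel₀ hp]
  have hyx : x = fun i => x p * y i := by
    funext i
    rw [hy, Pi.smul_apply, smul_eq_mul, ← mul_assoc, mul_inv_cancel₀ hp, one_mul]
  have hpole : poleOrder v y = 0 := by
    unfold poleOrder
    rw [← Nat.le_zero]
    refine Finset.sup_le fun i _ => ?_
    by_cases h0 : x i = 0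
    · have : y i = 0 := by rw [hy, Pi.smul_apply, smul_eq_mul, h0, mul_zero]
      rw [this, v.ord_zero]
      simp
    · have h2 := (h1 i).resolve_left h0
      have : v.ord (y i) = -mo v x + v.ord (x i) := by
        rw [hy, Pi.smul_apply, smul_eq_mul, v.ord_mul' (inv_ne_zero hp) h0, v.ord_inv, hpo]
      rw [this]
      omega
  obtain ⟨hall, j, hj, hjo⟩ := Pool.Agent.H92.VG.pf_GR k K htr n e F hF hsm y p hyp v
  rw [hpole] at hjo hall
  have hhom : ∀ j, (pderiv j (up K F)).IsHomogeneous e := by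
    intro j
    have := (hF.map (algebraMap k K)).pderiv (i := j)
    rwa [Nat.add_sub_cancel] at this
  have hev : ∀ j, eval x (pderiv j (up K F)) = x p ^ e * eval y (pderiv j (up K F)) := by
    intro j
    conv_lhs => rw [hyx]
    exact Pool.Agent.H92.VG.eval_scale (hhom j) (x p) y
  have hpe : v.ord (x p ^ e) = e * mo v x := by rw [v.ord_pow, hpo]
  refine ⟨fun j => ?_, j, ?_, ?_⟩
  · rw [hev]
    have h3 := (ge_of_ord v (x := x p ^ e)).mul (hall j)
    rw [hpe] at h3
    exact h3.mono (by simp)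
  · rw [hev]
    exact mul_ne_zero (pow_ne_zero _ hp) hj
  · rw [hev, v.ord_mul' (pow_ne_zero _ hp) hj, hjo, hpe]
    simp

/-- a row with a coefficient of the exact order -/
private theorem unit_row (hMO : T_MO) (htr : Algebra.trdeg k K = 1) {n e r : ℕ}
    (F : MvPolynomial (Fin (n + 1)) k) (hF : F.IsHomogeneous (e + 1))
    (hsm : ∀ z : Fin (n + 1) → k, z ≠ 0 → ∃ j, eval z (pderiv j F) ≠ 0)
    (v : DV k K) (x : Fin (n + 1) → K) (hx : x ≠ 0) {L : Submodule K (Fin (n + 1) → K)}
    {J : Fin (r + 1) → Fin (n + 1)} {z : Fin (r + 1) → Fin (n + 1) → K} (h : Cht L J z)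
    (hz : ∀ i j, ge v 0 (z i j)) (hxL : x ∈ L) :
    ∃ ρ : Row J, Sum.elim (fun i => ∑ a, eval x (pderiv a (up K F)) * z i a)
        (fun p : Fin (r + 1) × {j : Fin (n + 1) // ∀ i, J i ≠ j} =>
          x (J p.1) * eval x (pderiv p.2.1 (up K F))) ρ ≠ 0 ∧
      v.ord (Sum.elim (fun i => ∑ a, eval x (pderiv a (up K F)) * z i a)
        (fun p : Fin (r + 1) × {j : Fin (n + 1) // ∀ i, J i ≠ j} =>
          x (J p.1) * eval x (pderiv p.2.1 (up K F))) ρ) +
        Sum.elim (fun _ => mo v x) (fun _ => 0) ρ = (e + 1) * mo v x := by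
  classical
  obtain ⟨hall, j, hj, hjo⟩ := grad hMO htr F hF hsm v x hx
  obtain ⟨g, hg⟩ : ∃ g : Fin (n + 1) → K, g = fun a => eval x (pderiv a (up K F)) := ⟨_, rfl⟩
  have hg' : ∀ a, eval x (pderiv a (up K F)) = g a := fun a => by rw [hg]
  simp only [hg'] at hall hj hjo ⊢
  obtain ⟨hx1, -, hx3, -⟩ := (hMO k K v _ x).2 hx
  by_cases hA : ∃ j, (∀ i, J i ≠ j) ∧ g j ≠ 0 ∧ v.ord (g j) = e * mo v x
  · obtain ⟨j', hj'J, hj'0, hj'o⟩ := hA
    have hi : ∃ i, x (J i) ≠ 0 ∧ v.ord (x (J i)) = mo v x := by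
      by_contra hcon
      push Not at hcon
      have h1 : ∀ i, ge v (mo v x + 1) (x (J i)) := by
        intro i
        rcases hx1 (J i) with h0 | h0
        · exact Or.inl h0
        · by_cases h2 : x (J i) = 0
          · exact Or.inl h2
          right
          have := hcon i h2
          omega
      have h2 := hx3 (mo v x + 1) fun a => by
        rw [cht_coord h hxL a]
        refine ge_sum v _ _ _ fun i _ => ?_
        exact ((h1 i).mul (hz i a)).mono (by omega)
      omega
    obtain ⟨i, hi0, hio⟩ := hi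
    refine ⟨Sum.inr (i, ⟨j', hj'J⟩), ?_, ?_⟩
    · exact mul_ne_zero hi0 hj'0
    · simp only [Sum.elim_inr]
      rw [v.ord_mul' hi0 hj'0, hio, hj'o]
      ring
  · push Not at hA
    have hAA : ∀ j', (∀ i, J i ≠ j') → ge v (e * mo v x + 1) (g j') := by
      intro j' hj'
      by_cases h0 : g j' = 0
      · exact Or.inl h0
      have h1 := hA j' hj' h0
      have h2 := (hall j').resolve_left h0
      right
      omega
    have hi : ∃ i, J i = j := by
      by_contra hcon
      push Not at hcon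
      exact hA j hcon hj hjo
    obtain ⟨i, rfl⟩ := hi
    have hdec : ∑ a, g a * z i a = g (J i) + ∑ a ∈ Finset.univ.erase (J i), g a * z i a := by
      rw [← Finset.add_sum_erase Finset.univ _ (Finset.mem_univ (J i)), h.id, if_pos rfl, mul_one]
    have hrest : ge v (e * mo v x + 1) (∑ a ∈ Finset.univ.erase (J i), g a * z i a) := by
      refine ge_sum v _ _ _ fun a ha => ?_
      by_cases hJ : ∃ l, J l = a
      · obtain ⟨l, rfl⟩ := hJ
        have hne : i ≠ l := by
          rintro rfl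
          exact (Finset.mem_erase.1 ha).1 rfl
        rw [h.id, if_neg hne, mul_zero]
        exact ge_zero v _
      · push Not at hJ
        exact ((hAA a hJ).mul (hz i a)).mono (by omega)
    have hfin : ∑ a, g a * z i a ≠ 0 ∧ v.ord (∑ a, g a * z i a) = e * mo v x := by
      rw [hdec]
      obtain ⟨y, hy⟩ : ∃ y, y = ∑ a ∈ Finset.univ.erase (J i), g a * z i a := ⟨_, rfl⟩
      rw [← hy] at hrest ⊢
      have h1 := v.ord_add_eq_left (y := y) hj (fun hy0 => by
        have := hrest.resolve_left hy0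
        omega)
      exact ⟨h1.1, h1.2.trans hjo⟩
    refine ⟨Sum.inl i, hfin.1, ?_⟩
    simp only [Sum.elim_inl]
    rw [hfin.2]
    ring

variable {R : Type} [Field R] [Algebra R K]

private theorem opV_ge {n : ℕ} (v : DV k K) (τ : Op R K n) (hτ : LocOp v τ) {t : ℤ}
    (y : Fin (n + 1) → K) (hy : ∀ j, ge v t (y j)) (a : Fin (n + 1)) : ge v t (opV τ y a) := by
  unfold opV
  refine ge.sub ?_ (ge_sum v _ _ _ fun j _ => ?_)
  · rcases hy a with h0 | h0
    · rw [h0, map_zero]
      exact ge_zero v _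
    · exact (hτ.der (y a)).mono h0
  · exact ((hτ.mat a j).mul (hy j)).mono (by omega)

private theorem fq_ge {n r : ℕ} (v : DV k K) {J : Fin (r + 1) → Fin (n + 1)}
    {z : Fin (r + 1) → Fin (n + 1) → K} (hz : ∀ i j, ge v 0 (z i j)) {t : ℤ}
    (y : Fin (n + 1) → K) (hy : ∀ j, ge v t (y j)) (a : Fin (n + 1)) : ge v t (fq J z y a) := by
  unfold fq
  refine (hy a).sub (ge_sum v _ _ _ fun j _ => ?_)
  exact ((hy (J j)).mul (hz j a)).mono (by omega)

private theorem opV_D {n : ℕ} (D' : Derivation R K K) (D : Derivation k K K)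
    (h : ∀ z, D' z = D z) (y : Fin (n + 1) → K) :
    opV ((D', 0) : Op R K n) y = fun a => D (y a) := by
  funext a
  simp [opV, h]

end

theorem pf_ILG (hMO : T_MO) : T_ILG := by
  classical
  intro R k K _ _ _ _ _ _ _ _ htr n e r F hF hsm D D' hD hDD L v J z hJ hz x hxL hx hU κ _ _ e0
    τ hτ hsym
  have hEV : T_EV := Pool.Agent.H97.VG.ev
  have hdor := dor k K htr D hD v
  obtain ⟨U, hU'⟩ : ∃ U, U = eval x (up K F) := ⟨_, rfl⟩
  rw [← hU'] at hU ⊢
  obtain ⟨m, hm⟩ : ∃ m, m = mo v x := ⟨_, rfl⟩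
  obtain ⟨hx1, -, -, -⟩ := (hMO k K v _ x).2 hx
  obtain ⟨ρ0, hρ0, hρo⟩ := unit_row hMO htr F hF hsm v x hx hJ hz hxL
  obtain ⟨g, hg⟩ : ∃ g : Fin (n + 1) → K, g = fun a => eval x (pderiv a (up K F)) := ⟨_, rfl⟩
  have hg' : ∀ a, eval x (pderiv a (up K F)) = g a := fun a => by rw [hg]
  simp only [hg'] at hρ0 hρo
  obtain ⟨cf, hcf⟩ : ∃ cf : Row J → K, cf = Sum.elim (fun i => ∑ a, g a * z i a)
    (fun p : Fin (r + 1) × {j : Fin (n + 1) // ∀ i, J i ≠ j} => x (J p.1) * g p.2.1) := ⟨_, rfl⟩
  obtain ⟨wt, hwt⟩ : ∃ wt : Row J → ℤ, wt = Sum.elim (fun _ => mo v x) (fun _ => 0) := ⟨_, rfl⟩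
  rw [← hcf] at hρ0 hρo
  rw [← hwt] at hρo
  rw [← hm] at hρo hx1 hwt ⊢
  -- values of the combination
  have hcomb : ∀ σ : Op R K n, eval x (opF σ (up K F)) = 0 →
      ∑ ρ, cf ρ * colF J z x σ ρ = σ.1 U := by
    intro σ hσ
    have h1 := rho_eq hJ hxL g σ
    have h2 := hEV R K n σ (up K F) x
    rw [hσ, zero_add, eval_dir, ← hU'] at h2
    simp only [hg'] at h2
    rw [h2, ← h1, Fintype.sum_sum_type, hcf]
    rfl
  have hcombX : ∑ ρ, cf ρ * colX J x ρ = (e + 1 : ℕ) * U := by
    have h1 := euler_eval F hF x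
    simp only [hg'] at h1
    rw [← hU'] at h1
    rw [← h1, Fintype.sum_sum_type, hcf]
    simp only [Sum.elim_inl, Sum.elim_inr, colX, mul_zero, Finset.sum_const_zero, add_zero]
    have h2 : ∀ a, g a * x a = ∑ i, (g a * z i a) * x (J i) := by
      intro a
      conv_lhs => rw [cht_coord hJ hxL a]
      rw [Finset.mul_sum]
      refine Finset.sum_congr rfl fun i _ => by ring
    rw [Finset.sum_congr rfl fun a _ => h2 a, Finset.sum_comm]
    refine Finset.sum_congr rfl fun i _ => ?_
    rw [Finset.sum_mul]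
  -- the matrix
  obtain ⟨M, hM⟩ : ∃ M : Matrix (κ ⊕ Fin 2) (κ ⊕ Fin 2) K,
    M = (matF J z x D' τ).submatrix e0 id := ⟨_, rfl⟩
  rw [← hM]
  have hMe : ∀ a l, M a l = Sum.elim (fun c => colF J z x (τ c) (e0 a))
      (fun t : Fin 2 => if t = 0 then colF J z x (D', 0) (e0 a) else colX J x (e0 a)) l := by
    intro a l
    rw [hM]
    rcases l with c | t <;> rfl
  obtain ⟨a0, ha0⟩ : ∃ a0, e0 a0 = ρ0 := ⟨e0.symm ρ0, e0.apply_symm_apply _⟩
  have hdet : (M.updateRow a0 (∑ a, cf (e0 a) • M a)).det = cf ρ0 * M.det := by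
    have := Matrix.det_updateRow_sum M a0 fun a => cf (e0 a)
    rw [this, ha0, smul_eq_mul]
  have hsum : ∀ l, (∑ a, cf (e0 a) • M a) l = Sum.elim (fun c => (τ c).1 U)
      (fun t : Fin 2 => if t = 0 then D U else (e + 1 : ℕ) * U) l := by
    intro l
    have h3 : (∑ a, cf (e0 a) • M a) l = ∑ ρ, cf ρ * Sum.elim (fun c => colF J z x (τ c) ρ)
        (fun t : Fin 2 => if t = 0 then colF J z x (D', 0) ρ else colX J x ρ) l := by
      rw [Finset.sum_apply, ← Equiv.sum_comp e0]
      refine Finset.sum_congr rfl fun a _ => ?_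
      rw [Pi.smul_apply, smul_eq_mul, hMe]
    rw [h3]
    rcases l with c | t
    · simp only [Sum.elim_inl]
      exact hcomb _ (hsym c)
    · rcases (show t = 0 ∨ t = 1 by omega) with rfl | rfl
      · simp only [Sum.elim_inr, if_true]
        rw [hcomb _ (by rw [opF_D D' D hDD, map_zero])]
        exact hDD U
      · simp only [Sum.elim_inr, one_ne_zero, if_false]
        exact hcombX
  -- estimate of the entries
  have hentry : ∀ a l, ge v ((if a = a0 then v.ord U else wt (e0 a)) + (Sum.elim (fun _ => 0)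
      (fun t : Fin 2 => if t = 0 then ordD v D - 1 else 0) l))
      ((M.updateRow a0 (∑ a, cf (e0 a) • M a)) a l) := by
    intro a l
    by_cases ha : a = a0
    · rw [ha, Matrix.updateRow_self, hsum, if_pos rfl]
      rcases l with c | t
      · simp only [Sum.elim_inl, add_zero]
        exact (hτ c).der U
      · rcases (show t = 0 ∨ t = 1 by omega) with rfl | rfl
        · simp only [Sum.elim_inr, if_true]
          exact (hdor.2.1.2 U hU).mono (by omega)
        · simp only [Sum.elim_inr, one_ne_zero, if_false, add_zero]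
          have h3 : ge v 0 (((e + 1 : ℕ) : K)) := by
            have := ge_const v ((e + 1 : ℕ) : k)
            rwa [map_natCast] at this
          have h4 := h3.mul (ge_of_ord v (x := U))
          rwa [zero_add] at h4
    · rw [Matrix.updateRow_ne ha, if_neg ha, hMe, hwt]
      generalize e0 a = ρ
      have hDx : ∀ a, ge v (m + (ordD v D - 1)) (D (x a)) := by
        intro a
        by_cases h0 : x a = 0
        · rw [h0, map_zero]
          exact ge_zero v _
        · have h1 := hdor.2.1.2 (x a) h0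
          have h2 := (hx1 a).resolve_left h0
          exact h1.mono (by omega)
      have hDz : ∀ i a, ge v (ordD v D - 1) (D (z i a)) := by
        intro i a
        refine (hdor.2.1.1 (z i a) ?_).mono (by omega)
        rcases hz i a with h0 | h0
        · rw [h0, v.ord_zero]
        · exact h0
      rcases ρ with i | p
      · rcases l with c | t
        · simp only [Sum.elim_inl, add_zero, colF]
          exact opV_ge v (τ c) (hτ c) x hx1 _
        · rcases (show t = 0 ∨ t = 1 by omega) with rfl | rfl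
          · simp only [Sum.elim_inl, Sum.elim_inr, if_true, colF]
            rw [opV_D D' D hDD]
            exact hDx _
          · simp only [Sum.elim_inl, Sum.elim_inr, one_ne_zero, if_false, add_zero, colX]
            exact hx1 _
      · rcases l with c | t
        · simp only [Sum.elim_inl, Sum.elim_inr, add_zero, colF]
          exact fq_ge v hz _ (fun j => opV_ge v (τ c) (hτ c) (z p.1) (hz p.1) j) _
        · rcases (show t = 0 ∨ t = 1 by omega) with rfl | rfl
          · simp only [Sum.elim_inr, if_true, colF, zero_add]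
            rw [opV_D D' D hDD]
            exact fq_ge v hz _ (fun j => hDz p.1 j) _
          · simp only [Sum.elim_inr, one_ne_zero, if_false, colX]
            exact ge_zero v _
  have h3 := Pool.Agent.H70.LV.wdt k K v (κ ⊕ Fin 2) _ _ _ hentry
  rw [hdet] at h3
  have h4 : (∑ a : κ ⊕ Fin 2, (if a = a0 then v.ord U else wt (e0 a))) =
      v.ord U - wt ρ0 + (r + 1) * m := by
    have h5 : ∀ a : κ ⊕ Fin 2, (if a = a0 then v.ord U else wt (e0 a)) =
        (if a = a0 then v.ord U - wt ρ0 else 0) + wt (e0 a) := by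
      intro a
      split_ifs with h
      · rw [h, ha0]
        ring
      · ring
    rw [Finset.sum_congr rfl fun a _ => h5 a, Finset.sum_add_distrib, Finset.sum_ite_eq',
      Equiv.sum_comp e0 wt, Fintype.sum_sum_type, hwt]
    simp
  have h5 : (∑ l : κ ⊕ Fin 2, (Sum.elim (fun _ => 0)
      (fun t : Fin 2 => if t = 0 then ordD v D - 1 else 0) l : ℤ)) = ordD v D - 1 := by
    rw [Fintype.sum_sum_type, Fin.sum_univ_two]
    simp
  rw [h4, h5] at h3
  have h6 : ge v (-v.ord (cf ρ0)) (cf ρ0)⁻¹ := Or.inr (by rw [v.ord_inv])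
  have h7 := h6.mul h3
  rw [← mul_assoc, inv_mul_cancel₀ hρ0, one_mul] at h7
  refine h7.mono (le_of_eq ?_)
  have h8 : v.ord (cf ρ0) = (e + 1) * m - wt ρ0 := by omega
  rw [h8]
  ring

end Pool.Agent.H69.EE
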