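import Pool.Agent.H30.EE.TargetsP
import Pool.Agent.H27.LV.Gen

/-!
# MP_70ba79_ag, board ee_modules, row JSB: substitutions
-/

set_option autoImplicit false

namespace Pool.Agent.H69.EE

open MvPolynomial SC Pool.Agent.H27.LV Pool.Agent.H17.VG Pool.Agent.H30.EE

section

variable {K : Type} [Field K] {n : ℕ}

private theorem range_frL (d : ℕ) : LinearMap.range (frL K n d) = Sd K n d := by
  apply le_antisymm
  · rintro _ ⟨t, rfl⟩
    exact (mem_homogeneousSubmodule d _).2 (frm_homog t)
  · intro G hG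
    exact ⟨fun M => coeff (fs M.1) G, frm_coeff ((mem_homogeneousSubmodule d G).1 hG)⟩

private theorem fin_Sd (d : ℕ) : FiniteDimensional K (Sd K n d) := by
  rw [← range_frL d]
  infer_instance

private theorem fin_Md (d : ℕ) (x : Fin (n + 1) → K) : FiniteDimensional K (Md d x) := by
  haveI := fin_Sd (K := K) (n := n) d
  exact Submodule.finiteDimensional_of_le (inf_le_left : Md d x ≤ Sd K n d)

end

section

variable {k K : Type} [Field k] [Field K] [Algebra k K] {m n : ℕ}

private theorem sbs_X (l : Fin (m + 1) → Fin (n + 1) → K) (i : Fin (m + 1)) :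
    sbs l (X i) = lin (l i) := by
  unfold sbs
  rw [aeval_X]

/-- a left inverse of the substitution -/
private theorem sbs_injective (l : Fin (m + 1) → Fin (n + 1) → k) (hl : LinearIndependent k l) :
    Function.Injective (sbs fun i => ul K (l i)) := by
  have h1 : LinearMap.ker (Fintype.linearCombination k l) = ⊥ :=
    LinearMap.ker_eq_bot.2 hl.fintypeLinearCombination_injective
  obtain ⟨g, hg⟩ := LinearMap.exists_leftInverse_of_injective _ h1
  have hg1 : ∀ i, g (l i) = Pi.single i 1 := by
    intro i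
    have h2 := LinearMap.congr_fun hg (Pi.single i 1)
    rw [LinearMap.comp_apply, Fintype.linearCombination_apply_single, one_smul] at h2
    exact h2
  have hg2 : ∀ i, ∑ j, l i j • g (Pi.single j 1) = Pi.single i 1 := by
    intro i
    rw [← hg1 i, LinearMap.pi_apply_eq_sum_univ g (l i)]
    refine Finset.sum_congr rfl fun j _ => ?_
    have h3 : (Pi.single j (1 : k) : Fin (n + 1) → k) = fun j' => if j = j' then 1 else 0 := by
      funext j'
      rw [Pi.single_apply]
      simp only [eq_comm]
    rw [h3]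
  set b : Fin (n + 1) → MvPolynomial (Fin (m + 1)) K :=
    fun j => ∑ i, C (algebraMap k K (g (Pi.single j 1) i)) * X i with hb
  have hcomp : (aeval b : MvPolynomial (Fin (n + 1)) K →ₐ[K] MvPolynomial (Fin (m + 1)) K).comp
      (sbs fun i => ul K (l i)) = AlgHom.id K _ := by
    apply MvPolynomial.algHom_ext
    intro i
    rw [AlgHom.comp_apply, sbs_X, AlgHom.id_apply]
    unfold lin ul
    rw [map_sum]
    simp only [map_mul, aeval_X, algHom_C, algebraMap_eq]
    rw [hb]
    simp only [Finset.mul_sum]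
    rw [Finset.sum_comm]
    have h3 : ∀ i', ∑ j, C (algebraMap k K (l i j)) *
        (C (algebraMap k K (g (Pi.single j 1) i')) * X i') =
        (C (algebraMap k K ((Pi.single i (1 : k) : Fin (m + 1) → k) i')) * X i' :
          MvPolynomial (Fin (m + 1)) K) := by
      intro i'
      rw [← hg2 i, Finset.sum_apply, map_sum, map_sum, Finset.sum_mul]
      refine Finset.sum_congr rfl fun j _ => ?_
      rw [Pi.smul_apply, smul_eq_mul, map_mul, map_mul, mul_assoc]
    rw [Finset.sum_congr rfl fun i' _ => h3 i']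
    rw [Finset.sum_eq_single i]
    · rw [Pi.single_eq_same, map_one, map_one, one_mul]
    · intro j _ hj
      rw [Pi.single_eq_of_ne hj, map_zero, map_zero, zero_mul]
    · intro h
      exact absurd (Finset.mem_univ i) h
  intro a a' h
  have h2 := congrArg (aeval b : MvPolynomial (Fin (n + 1)) K →ₐ[K]
    MvPolynomial (Fin (m + 1)) K) h
  rw [← AlgHom.comp_apply, ← AlgHom.comp_apply, hcomp, AlgHom.id_apply, AlgHom.id_apply] at h2
  exact h2

private theorem sbs_homog (l : Fin (m + 1) → Fin (n + 1) → K) {a : ℕ}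
    {G : MvPolynomial (Fin (m + 1)) K} (hG : G.IsHomogeneous a) :
    (sbs l G).IsHomogeneous a := by
  unfold sbs
  have h1 := hG.aeval (fun i => lin (l i)) (n := 1) fun i => isHomogeneous_lin (l i)
  rwa [one_mul] at h1

private theorem eval_sbs (l : Fin (m + 1) → Fin (n + 1) → k) (x : Fin (n + 1) → K)
    (G : MvPolynomial (Fin (m + 1)) K) :
    aeval (R := K) x (sbs (fun i => ul K (l i)) G) = aeval (R := K) (fun i => Pool.Agent.H30.EE.el (l i) x) G := by
  unfold sbs
  have h1 : (aeval (R := K) x).comp (aeval (R := K) fun i => lin (ul K (l i))) =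
      aeval (R := K) (fun i => Pool.Agent.H30.EE.el (l i) x) := by
    apply MvPolynomial.algHom_ext
    intro i
    rw [AlgHom.comp_apply, aeval_X, aeval_X]
    unfold lin ul Pool.Agent.H30.EE.el
    rw [map_sum]
    refine Finset.sum_congr rfl fun j _ => ?_
    rw [map_mul, aeval_X, algHom_C]
    rfl
  rw [← h1, AlgHom.comp_apply]

end

theorem pf_JSB (hSBS : T_SBS) (hDSP : T_DSP) (hHNB : T_HNB) : T_JSB := by
  intro k K _ _ _ _ _ _ htr m n a x μ l J J' hl hJ hJ'
  haveI := fin_Md a x
  have hinj := sbs_injective (K := K) l hl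
  set f : MvPolynomial (Fin (m + 1)) K →ₗ[K] MvPolynomial (Fin (n + 1)) K :=
    (sbs fun i => ul K (l i)).toLinearMap with hf
  have hsup := (hDSP k K htr n a).2.2.2.1
  have hMd : Md a x ≤ Sd K n a := inf_le_left
  obtain ⟨-, h2, -⟩ := hHNB K _ (Md a x) (dS k n a) μ J'
    (fun U hU U' hU' => hsup U (hU.trans hMd) U' (hU'.trans hMd)) hJ'
  have hfr : ∀ W : Submodule K (MvPolynomial (Fin (m + 1)) K),
      Module.finrank K (W.map f) = Module.finrank K W := fun W =>
    (LinearEquiv.finrank_eq (Submodule.equivMapOfInjective f hinj W)).symm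
  have hJM : J ≤ Sd K m a := hJ.le.trans inf_le_left
  apply h2
  · rintro _ ⟨G, hG, rfl⟩
    obtain ⟨h3, h4⟩ := hJ.le hG
    refine ⟨(mem_homogeneousSubmodule a _).2 (sbs_homog _ ((mem_homogeneousSubmodule a G).1 h3)),
      ?_⟩
    rw [SetLike.mem_coe, LinearMap.mem_ker] at h4 ⊢
    rw [AlgHom.toLinearMap_apply] at h4 ⊢
    rw [hf, AlgHom.toLinearMap_apply, eval_sbs]
    exact h4
  · intro U' hU'
    have h3 : U' = (J ⊓ U'.comap f).map f := by
      apply le_antisymm
      · intro u hu
        obtain ⟨G, hG, rfl⟩ := hU' hu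
        exact ⟨G, ⟨hG, hu⟩, rfl⟩
      · rintro _ ⟨G, ⟨-, hG⟩, rfl⟩
        exact hG
    have h4 : J ⊓ U'.comap f ≤ J := inf_le_left
    rw [h3]
    unfold fmu
    rw [hfr, hfr, hf, hSBS k K htr m n a l hl _ (h4.trans hJM), hSBS k K htr m n a l hl _ hJM]
    exact hJ.mx _ (h4.trans hJ.le)

end Pool.Agent.H69.EE
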