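import Pool.Agent.H30.EE.TargetsH
import Pool.Agent.H27.LV.Curve

/-!
# MP_70ba79_ag, board ee_modules, row SUP: the degree is supermodular
-/

set_option autoImplicit false

namespace Pool.Agent.H69.EE

open MvPolynomial SC Pool.Agent.H27.LV Pool.Agent.H17.VG Pool.Agent.H30.EE

section

variable {K ι : Type} [Field K]

/-- block triangular changes of the basis -/
private theorem block {p q : ℕ} (u B : Fin p → ι → K) (w G : Fin q → ι → K)
    (A : Matrix (Fin p) (Fin p) K) (X : Matrix (Fin q) (Fin p) K) (Y : Matrix (Fin q) (Fin q) K)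
    (hB : ∀ a i, B a i = ∑ j, A a j * u j i)
    (hG : ∀ a i, G a i = ∑ j, X a j * u j i + ∑ j, Y a j * w j i) :
    ∃ M : Matrix (Fin (p + q)) (Fin (p + q)) K, M.det = A.det * Y.det ∧
      ∀ a i, Fin.append B G a i = ∑ j, M a j * Fin.append u w j i := by
  refine ⟨(Matrix.fromBlocks A 0 X Y).submatrix finSumFinEquiv.symm finSumFinEquiv.symm, ?_, ?_⟩
  · rw [Matrix.det_submatrix_equiv_self, Matrix.det_fromBlocks_zero₁₂]
  · intro a i
    refine Fin.addCases (fun a => ?_) (fun a => ?_) a
    · rw [Fin.append_left, hB, Fin.sum_univ_add]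
      simp only [Matrix.submatrix_apply, finSumFinEquiv_symm_apply_castAdd,
        finSumFinEquiv_symm_apply_natAdd, Matrix.fromBlocks_apply₁₁, Matrix.fromBlocks_apply₁₂,
        Matrix.zero_apply, zero_mul, Finset.sum_const_zero, add_zero, Fin.append_left]
    · rw [Fin.append_right, hG, Fin.sum_univ_add]
      simp only [Matrix.submatrix_apply, finSumFinEquiv_symm_apply_castAdd,
        finSumFinEquiv_symm_apply_natAdd, Matrix.fromBlocks_apply₂₁, Matrix.fromBlocks_apply₂₂,
        Fin.append_left, Fin.append_right]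

/-- coefficients -/
private theorem coeffs {m : ℕ} (u : Fin m → ι → K) {l : ℕ} (B : Fin l → ι → K)
    (h : ∀ a, B a ∈ Submodule.span K (Set.range u)) :
    ∃ A : Matrix (Fin l) (Fin m) K, ∀ a i, B a i = ∑ j, A a j * u j i := by
  have h1 : ∀ a, ∃ c : Fin m → K, ∑ j, c j • u j = B a := fun a =>
    (Submodule.mem_span_range_iff_exists_fun K).1 (h a)
  choose A hA using h1
  refine ⟨A, fun a i => ?_⟩
  rw [← hA a, Finset.sum_apply]
  rfl

private theorem coeffs2 {p q : ℕ} (u : Fin p → ι → K) (w : Fin q → ι → K) {l : ℕ}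
    (G : Fin l → ι → K) (h : ∀ a, G a ∈ Submodule.span K (Set.range (Fin.append u w))) :
    ∃ (X : Matrix (Fin l) (Fin p) K) (Y : Matrix (Fin l) (Fin q) K),
      ∀ a i, G a i = ∑ j, X a j * u j i + ∑ j, Y a j * w j i := by
  obtain ⟨A, hA⟩ := coeffs (Fin.append u w) G h
  refine ⟨fun a j => A a (Fin.castAdd q j), fun a j => A a (Fin.natAdd p j), fun a i => ?_⟩
  rw [hA, Fin.sum_univ_add]
  simp only [Fin.append_left, Fin.append_right]

private theorem mnr_of (hCBM : T_CBM) [Finite ι] {m : ℕ} (u B : Fin m → ι → K)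
    (M : Matrix (Fin m) (Fin m) K) (h : ∀ a i, B a i = ∑ j, M a j * u j i) :
    mnr B = M.det • mnr u := by
  rw [← (hCBM K m ι u).2 M]
  congr 1
  funext a i
  exact h a i

end

section

variable {k K : Type} [Field k] [Field K] [Algebra k K]

private theorem ge_det (v : DV k K) {m : ℕ} (M : Matrix (Fin m) (Fin m) K)
    (h : ∀ i j, ge v 0 (M i j)) : ge v 0 M.det := by
  classical
  rw [Matrix.det_apply]
  refine ge_sum v _ _ 0 fun σ _ => ?_
  have hp : ∀ s : Finset (Fin m), ge v 0 (∏ i ∈ s, M (σ i) i) := by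
    intro s
    induction s using Finset.induction_on with
    | empty =>
      rw [Finset.prod_empty]
      exact ge_one v
    | insert a s ha ih =>
      rw [Finset.prod_insert ha]
      exact ge.mul (h _ _) ih
  rcases Int.units_eq_one_or (Equiv.Perm.sign σ) with h1 | h1
  · rw [h1, one_smul]
    exact hp _
  · rw [h1, Units.neg_smul, one_smul]
    exact ge.neg (hp _)

variable [IsAlgClosed k] [CharZero k] [Algebra.EssFiniteType k K]

/-- primitive bases at `v` -/
private theorem data (hMO : T_MO) (hCBM : T_CBM) (hPBA : T_PBA) (htr : Algebra.trdeg k K = 1)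
    {ι : Type} [Finite ι] (v : DV k K) (U U' : Submodule K (ι → K)) {p q r : ℕ}
    (hp : p = Module.finrank K (U ⊓ U' : Submodule K (ι → K)))
    (hq : p + q = Module.finrank K U) (hr : p + r = Module.finrank K U') :
    ∃ (b : Fin p → ι → K) (c : Fin q → ι → K) (c' : Fin r → ι → K), Prm v b ∧
      Prm v (Fin.append b c) ∧ Prm v (Fin.append b c') ∧
      Submodule.span K (Set.range b) = U ⊓ U' ∧
      Submodule.span K (Set.range (Fin.append b c)) = U ∧
      Submodule.span K (Set.range (Fin.append b c')) = U' := by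
  have hdim : ∀ {m : ℕ} {u : Fin m → ι → K}, Prm v u →
      Module.finrank K (Submodule.span K (Set.range u)) = m := by
    intro m u hu
    rw [finrank_span_eq_card ((hCBM K m ι u).1.2 hu.ne), Fintype.card_fin]
  have h0 : Prm v (fun a : Fin 0 => (Fin.elim0 a : ι → K)) := by
    have h1 : mnr (fun a : Fin 0 => (Fin.elim0 a : ι → K)) = fun _ => 1 := by
      funext J
      unfold mnr
      rw [Matrix.det_isEmpty]
    have h2 : mnr (fun a : Fin 0 => (Fin.elim0 a : ι → K)) ≠ 0 := by
      rw [h1]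
      intro h
      exact one_ne_zero (congrFun h fun a => Fin.elim0 a)
    refine ⟨fun a => Fin.elim0 a, h2, ?_⟩
    obtain ⟨-, ⟨i, -, h3⟩, -⟩ := (hMO k K v _ _).2 h2
    rw [← h3, h1, v.ord_one]
  have hsp0 : Submodule.span K (Set.range (fun a : Fin 0 => (Fin.elim0 a : ι → K))) ≤
      U ⊓ U' := by
    rw [Set.range_eq_empty, Submodule.span_empty]
    exact bot_le
  obtain ⟨m, b₀, hb, hbs⟩ := hPBA k K htr v ι 0 _ (U ⊓ U') h0 hsp0
  have hm : 0 + m = p := by
    rw [hp, ← hbs]
    exact (hdim hb).symm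
  subst hm
  obtain ⟨q', c, hc, hcs⟩ := hPBA k K htr v ι _ _ U hb (hbs.le.trans inf_le_left)
  obtain ⟨r', c', hc', hcs'⟩ := hPBA k K htr v ι _ _ U' hb (hbs.le.trans inf_le_right)
  have hq' : q' = q := by
    have h1 := hdim hc
    rw [hcs] at h1
    omega
  have hr' : r' = r := by
    have h1 := hdim hc'
    rw [hcs'] at h1
    omega
  subst hq' hr'
  exact ⟨_, c, c', hb, hc, hc', hbs, hcs, hcs'⟩

end

theorem pf_SUP (hMO : T_MO) (hHG : T_HG) (hCBM : T_CBM) (hPBA : T_PBA) (hDGB : T_DGB) :
    T_SUP := by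
  classical
  intro k K _ _ _ _ _ _ htr ι _ U U'
  cases nonempty_fintype ι
  rcases isEmpty_or_nonempty (DV k K) with hE | ⟨⟨v₀⟩⟩
  · have h0 : ∀ W : Submodule K (ι → K), dg k W = 0 := by
      intro W
      unfold dg hgt
      rw [finsum_of_isEmpty]
      rfl
    simp only [h0]
    exact le_rfl
  obtain ⟨p, hp⟩ : ∃ p, p = Module.finrank K (U ⊓ U' : Submodule K (ι → K)) := ⟨_, rfl⟩
  obtain ⟨q, hq⟩ : ∃ q, p + q = Module.finrank K U := by
    have h1 : Module.finrank K (U ⊓ U' : Submodule K (ι → K)) ≤ Module.finrank K U :=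
      Submodule.finrank_mono inf_le_left
    exact ⟨Module.finrank K U - p, by omega⟩
  obtain ⟨r, hr⟩ : ∃ r, p + r = Module.finrank K U' := by
    have h1 : Module.finrank K (U ⊓ U' : Submodule K (ι → K)) ≤ Module.finrank K U' :=
      Submodule.finrank_mono inf_le_right
    exact ⟨Module.finrank K U' - p, by omega⟩
  obtain ⟨B, G, G', hB, hG, hG', hBs, hGs, hGs'⟩ := data hMO hCBM hPBA htr v₀ U U' hp hq hr
  -- the basis of the sum
  have hrange : ∀ {m l : ℕ} (x : Fin m → ι → K) (y : Fin l → ι → K),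
      Set.range (Fin.append x y) = Set.range x ∪ Set.range y := by
    intro m l x y
    ext z
    constructor
    · rintro ⟨a, rfl⟩
      refine Fin.addCases (fun a => ?_) (fun a => ?_) a
      · rw [Fin.append_left]
        exact Or.inl ⟨a, rfl⟩
      · rw [Fin.append_right]
        exact Or.inr ⟨a, rfl⟩
    · rintro (⟨a, rfl⟩ | ⟨a, rfl⟩)
      · exact ⟨Fin.castAdd l a, Fin.append_left _ _ a⟩
      · exact ⟨Fin.natAdd m a, Fin.append_right _ _ a⟩
  have hsum : Submodule.span K (Set.range (Fin.append (Fin.append B G) G')) = U ⊔ U' := by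
    rw [hrange, Submodule.span_union, hGs]
    apply le_antisymm
    · refine sup_le le_sup_left (le_trans ?_ (le_sup_right : U' ≤ U ⊔ U'))
      rw [← hGs', hrange, Submodule.span_union]
      exact le_sup_right
    · refine sup_le le_sup_left ?_
      calc U' = Submodule.span K (Set.range (Fin.append B G')) := hGs'.symm
        _ = Submodule.span K (Set.range B) ⊔ Submodule.span K (Set.range G') := by
            rw [hrange, Submodule.span_union]
        _ ≤ U ⊔ Submodule.span K (Set.range G') := by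
            rw [hBs]
            exact sup_le_sup_right inf_le_left _
  have hli : LinearIndependent K (Fin.append (Fin.append B G) G') := by
    rw [linearIndependent_iff_card_eq_finrank_span, Set.finrank, hsum, Fintype.card_fin]
    have h1 := Submodule.finrank_sup_add_finrank_inf_eq U U'
    omega
  have hliB : LinearIndependent K B := (hCBM K p ι B).1.2 hB.ne
  have hliG : LinearIndependent K (Fin.append B G) := (hCBM K _ ι _).1.2 hG.ne
  have hliG' : LinearIndependent K (Fin.append B G') := (hCBM K _ ι _).1.2 hG'.ne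
  have hne : mnr (Fin.append (Fin.append B G) G') ≠ 0 := (hCBM K _ ι _).1.1 hli
  have d1 := hDGB k K htr ι _ _ hliB
  have d2 := hDGB k K htr ι _ _ hliG
  have d3 := hDGB k K htr ι _ _ hliG'
  have d4 := hDGB k K htr ι _ _ hli
  rw [hBs] at d1
  rw [hGs] at d2
  rw [hGs'] at d3
  rw [hsum] at d4
  rw [d1, d2, d3, d4]
  unfold hgt
  simp only [neg_neg]
  -- the supports are finite
  have f1 := (hHG k K htr _ (mnr B)).1
  have f2 := (hHG k K htr _ (mnr (Fin.append B G))).1
  have f3 := (hHG k K htr _ (mnr (Fin.append B G'))).1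
  have f4 := (hHG k K htr _ (mnr (Fin.append (Fin.append B G) G'))).1
  rw [← finsum_add_distrib f2 f3, ← finsum_add_distrib f1 f4]
  have g1 := (f2.union f3).subset (Function.support_add
    (fun v : DV k K => mo v (mnr (Fin.append B G))) fun v : DV k K => mo v (mnr (Fin.append B G')))
  have g2 := (f1.union f4).subset (Function.support_add
    (fun v : DV k K => mo v (mnr B)) fun v : DV k K => mo v (mnr (Fin.append (Fin.append B G) G')))
  rw [← sub_nonneg]
  refine le_of_le_of_eq (finsum_nonneg ?_) (finsum_sub_distrib g2 g1)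
  -- the place `v`
  intro v
  obtain ⟨b, c, c', hb, hc, hc', hbs, hcs, hcs'⟩ := data hMO hCBM hPBA htr v U U' hp hq hr
  obtain ⟨A, hA⟩ := coeffs b B fun a => by
    rw [hbs, ← hBs]
    exact Submodule.subset_span ⟨a, rfl⟩
  obtain ⟨X, Y, hXY⟩ := coeffs2 b c G fun a => by
    rw [hcs, ← hGs, hrange]
    exact Submodule.subset_span (Or.inr ⟨a, rfl⟩)
  obtain ⟨X', Y', hXY'⟩ := coeffs2 b c' G' fun a => by
    rw [hcs', ← hGs', hrange]
    exact Submodule.subset_span (Or.inr ⟨a, rfl⟩)
  obtain ⟨M₁, hM₁, hM₁'⟩ := block b B c G A X Y hA hXY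
  obtain ⟨M₂, hM₂, hM₂'⟩ := block b B c' G' A X' Y' hA hXY'
  obtain ⟨M₃, hM₃, hM₃'⟩ := block (Fin.append b c) (Fin.append B G) c' G' M₁
    (fun a j => Fin.append (X' a) (fun _ : Fin q => (0 : K)) j) Y' hM₁' (by
      intro a i
      rw [hXY', Fin.sum_univ_add]
      simp only [Fin.append_left, Fin.append_right, zero_mul, Finset.sum_const_zero, add_zero])
  have e0 := mnr_of hCBM b B A hA
  have e1 := mnr_of hCBM _ _ M₁ hM₁'
  have e2 := mnr_of hCBM _ _ M₂ hM₂'
  have e3 := mnr_of hCBM _ _ M₃ hM₃'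
  have n0 : A.det ≠ 0 := by
    intro h
    apply hB.ne
    rw [e0, h, zero_smul]
  have n1 : M₁.det ≠ 0 := by
    intro h
    apply hG.ne
    rw [e1, h, zero_smul]
  have n2 : M₂.det ≠ 0 := by
    intro h
    apply hG'.ne
    rw [e2, h, zero_smul]
  have n3 : M₃.det ≠ 0 := by
    intro h
    apply hne
    rw [e3, h, zero_smul]
  have nY' : Y'.det ≠ 0 := by
    intro h
    apply n2
    rw [hM₂, h, mul_zero]
  have nY : Y.det ≠ 0 := by
    intro h
    apply n1
    rw [hM₁, h, mul_zero]
  have nb : mnr (Fin.append (Fin.append b c) c') ≠ 0 := by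
    intro h
    apply hne
    rw [e3, h, smul_zero]
  have hsm : ∀ (κ : Type) [Finite κ] (P : κ → K) (a : K), P ≠ 0 → a ≠ 0 →
      mo v (a • P) = v.ord a + mo v P := fun κ _ P a hP ha =>
    ((hMO k K v κ P).2 hP).2.2.2.1 a ha
  have o0 : mo v (mnr B) = v.ord A.det := by
    rw [e0, hsm _ _ _ hb.ne n0, hb.ord, add_zero]
  have o1 : mo v (mnr (Fin.append B G)) = v.ord A.det + v.ord Y.det := by
    rw [e1, hsm _ _ _ hc.ne n1, hc.ord, add_zero, hM₁, v.ord_mul' n0 nY]
  have o2 : mo v (mnr (Fin.append B G')) = v.ord A.det + v.ord Y'.det := by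
    rw [e2, hsm _ _ _ hc'.ne n2, hc'.ord, add_zero, hM₂, v.ord_mul' n0 nY']
  have o3 : mo v (mnr (Fin.append (Fin.append B G) G')) =
      v.ord A.det + v.ord Y.det + v.ord Y'.det + mo v (mnr (Fin.append (Fin.append b c) c')) := by
    rw [e3, hsm _ _ _ nb n3, hM₃, v.ord_mul' n1 nY', hM₁, v.ord_mul' n0 nY]
  have o4 : 0 ≤ mo v (mnr (Fin.append (Fin.append b c) c')) := by
    apply ((hMO k K v _ _).2 nb).2.2.1
    intro J
    unfold mnr
    apply ge_det
    intro a j
    rw [Matrix.of_apply]
    refine Fin.addCases (fun a => ?_) (fun a => ?_) a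
    · rw [Fin.append_left]
      exact hc.int a _
    · rw [Fin.append_right]
      have h1 := hc'.int (Fin.natAdd p a) (J j)
      rw [Fin.append_right] at h1
      exact h1
  show 0 ≤ (mo v (mnr B) + mo v (mnr (Fin.append (Fin.append B G) G'))) -
    (mo v (mnr (Fin.append B G)) + mo v (mnr (Fin.append B G')))
  rw [o0, o1, o2, o3]
  linarith

end Pool.Agent.H69.EE
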