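import Pool.Agent.H30.EE.TargetsI
import Pool.Agent.H97.VG.OP

/-!
# MP_70ba79_ag, board ee_modules, row IOM: the alternating form
-/

set_option autoImplicit false

namespace Pool.Agent.H69.EE

open MvPolynomial SC Pool.Agent.H27.LV Pool.Agent.H17.VG Pool.Agent.H30.EE

/-- the determinant of some variable and some fixed columns, as an alternating form -/
private theorem altform {K M : Type} [Field K] [AddCommGroup M] [Module K M] {s : ℕ} {ι : Type}
    (c : M →ₗ[K] (ι → K)) (u : Fin 2 → ι → K) (e0 : Fin s ⊕ Fin 2 ≃ ι) :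
    ∃ ω : M [⋀^Fin s]→ₗ[K] K, ∀ g : Fin s → M, ω g = (Matrix.of fun (a b : Fin s ⊕ Fin 2) =>
      Sum.elim (fun i => c (g i)) u b (e0 a)).det := by
  classical
  obtain ⟨f, hf⟩ : ∃ f : (ι → K) →ₗ[K] (Fin s ⊕ Fin 2 → K), f = LinearMap.funLeft K K e0 :=
    ⟨_, rfl⟩
  have hfe : ∀ w a, f w a = w (e0 a) := by
    intro w a
    rw [hf]
    rfl
  have hdet : ∀ g : Fin s → M, (Matrix.of fun (a b : Fin s ⊕ Fin 2) =>
      Sum.elim (fun i => c (g i)) u b (e0 a)).det = Matrix.detRowAlternating
        (Sum.elim (fun i => f (c (g i))) (fun t => f (u t))) := by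
    intro g
    rw [← Matrix.det_transpose]
    congr 1
    funext a b
    rw [Matrix.transpose_apply, Matrix.of_apply]
    rcases a with a | a
    · rw [Sum.elim_inl, Sum.elim_inl, hfe]
    · rw [Sum.elim_inr, Sum.elim_inr, hfe]
  refine ⟨{ toFun := fun g => Matrix.detRowAlternating
              (Sum.elim (fun i => f (c (g i))) (fun t => f (u t)))
            map_update_add' := ?_
            map_update_smul' := ?_
            map_eq_zero_of_eq' := ?_ }, fun g => ?_⟩
  · intro hdec g i x y
    have h1 : ∀ x, (Sum.elim (fun j => f (c (Function.update g i x j))) (fun t => f (u t)) :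
        Fin s ⊕ Fin 2 → Fin s ⊕ Fin 2 → K) =
        Function.update (Sum.elim (fun j => f (c (g j))) (fun t => f (u t))) (Sum.inl i)
          (f (c x)) := by
      intro x
      funext a
      rcases a with a | a
      · by_cases h : a = i
        · rw [h, Function.update_self, Sum.elim_inl, Function.update_self]
        · rw [Function.update_of_ne (fun h' => h (Sum.inl_injective h')), Sum.elim_inl,
            Sum.elim_inl, Function.update_of_ne h]
      · rw [Function.update_of_ne (by simp)]
        rfl
    rw [h1, h1, h1, map_add, map_add, AlternatingMap.map_update_add]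
  · intro hdec g i x y
    have h1 : ∀ x, (Sum.elim (fun j => f (c (Function.update g i x j))) (fun t => f (u t)) :
        Fin s ⊕ Fin 2 → Fin s ⊕ Fin 2 → K) =
        Function.update (Sum.elim (fun j => f (c (g j))) (fun t => f (u t))) (Sum.inl i)
          (f (c x)) := by
      intro x
      funext a
      rcases a with a | a
      · by_cases h : a = i
        · rw [h, Function.update_self, Sum.elim_inl, Function.update_self]
        · rw [Function.update_of_ne (fun h' => h (Sum.inl_injective h')), Sum.elim_inl,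
            Sum.elim_inl, Function.update_of_ne h]
      · rw [Function.update_of_ne (by simp)]
        rfl
    rw [h1, h1, map_smul, map_smul, AlternatingMap.map_update_smul]
  · intro g i j hij hne
    refine AlternatingMap.map_eq_zero_of_eq _ _ (i := Sum.inl i) (j := Sum.inl j) ?_
      (fun h => hne (Sum.inl_injective h))
    rw [Sum.elim_inl, Sum.elim_inl, hij]
  · rw [hdet]
    rfl

/-- the determinant is not zero if and only if the columns are independent -/
private theorem det_ne {K : Type} [Field K] {s : ℕ} {ι : Type}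
    (w : Fin s ⊕ Fin 2 → ι → K) (e0 : Fin s ⊕ Fin 2 ≃ ι) :
    (Matrix.of fun (a b : Fin s ⊕ Fin 2) => w b (e0 a)).det ≠ 0 ↔ LinearIndependent K w := by
  classical
  rw [← isUnit_iff_ne_zero, ← Matrix.isUnit_iff_isUnit_det,
    ← Matrix.linearIndependent_cols_iff_isUnit]
  have h1 : (Matrix.of fun (a b : Fin s ⊕ Fin 2) => w b (e0 a)).col =
      (LinearEquiv.funCongrLeft K K e0).toLinearMap ∘ w := by
    funext b a
    rfl
  rw [h1]
  exact LinearMap.linearIndependent_iff _ (LinearEquiv.ker _)

/-- completion of two vectors to a basis -/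
private theorem complete {K : Type} [Field K] {s : ℕ} {ι : Type} [Fintype ι]
    (e0 : Fin s ⊕ Fin 2 ≃ ι) (u : Fin 2 → ι → K) (hu : LinearIndependent K u) :
    ∃ w : Fin s → ι → K, LinearIndependent K (Sum.elim w u) := by
  obtain ⟨W, hW⟩ := Submodule.exists_isCompl (Submodule.span K (Set.range u))
  have h1 := Submodule.finrank_add_eq_of_isCompl hW
  rw [finrank_span_eq_card hu, Module.finrank_pi, ← Fintype.card_congr e0, Fintype.card_sum,
    Fintype.card_fin, Fintype.card_fin] at h1
  have h2 : Module.finrank K W = s := by omega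
  obtain ⟨b, hb⟩ : ∃ b : Module.Basis (Fin s) K W, True := ⟨Module.finBasisOfFinrankEq K W h2, trivial⟩
  refine ⟨fun i => (b i : ι → K), LinearIndependent.sum_type ?_ hu ?_⟩
  · have h3 := b.linearIndependent.map' W.subtype (Submodule.ker_subtype W)
    exact h3
  · refine Disjoint.mono_left ?_ hW.disjoint.symm
    rw [Submodule.span_le]
    rintro _ ⟨i, rfl⟩
    exact (b i).2

section

variable {R K : Type} [Field R] [Field K] [Algebra R K] {n r : ℕ}

private theorem opV_lin (τ τ' : Op R K n) (a : K) (y : Fin (n + 1) → K) (i : Fin (n + 1)) :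
    opV (τ + a • τ') y i = opV τ y i + a * opV τ' y i := by
  unfold opV
  simp only [Prod.fst_add, Prod.snd_add, Prod.smul_fst, Prod.smul_snd, Derivation.add_apply,
    Derivation.smul_apply, smul_eq_mul, Matrix.add_apply, Matrix.smul_apply, add_mul,
    Finset.sum_add_distrib, mul_assoc, ← Finset.mul_sum]
  ring

private theorem colF_lin (J : Fin (r + 1) → Fin (n + 1)) (z : Fin (r + 1) → Fin (n + 1) → K)
    (x : Fin (n + 1) → K) (τ τ' : Op R K n) (a : K) (ρ : Row J) :
    colF J z x (τ + a • τ') ρ = colF J z x τ ρ + a * colF J z x τ' ρ := by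
  rcases ρ with i | p
  · exact opV_lin τ τ' a x _
  · simp only [colF, fq, opV_lin, add_mul, Finset.sum_add_distrib, mul_assoc]
    rw [← Finset.mul_sum]
    ring

end

theorem pf_IOM (hITL : T_ITL) (hISU : T_ISU) : T_IOM := by
  classical
  intro R K _ _ _ _ n e r s F D x L hS hxD hU hxL J z hJ e0
  have hOP : T_OP := Pool.Agent.H97.VG.op
  -- linear choice of the operators
  obtain ⟨S, hS'⟩ : ∃ S : Op R K n →ₗ[K] MvPolynomial (Fin (n + 1)) K, ∀ τ, S τ = opF τ F := by
    refine ⟨{ toFun := fun τ => opF τ F, map_add' := fun τ τ' => ?_,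
              map_smul' := fun a τ => ?_ }, fun τ => rfl⟩
    · have h := (hOP R K n 0 τ τ' F F 1 1 0).2.2.1
      rwa [one_smul, one_smul, C_1, one_mul, one_mul] at h
    · have h := (hOP R K n 0 τ 0 F F a 0 0).2.2.1
      rw [smul_zero, add_zero, C_0, zero_mul, add_zero] at h
      rw [h, RingHom.id_apply, smul_eq_C_mul]
  obtain ⟨T, hT⟩ : ∃ T : Md (e + 1) x →ₗ[K] Op R K n,
      ∀ g : Md (e + 1) x, opF (T g) F = (g : MvPolynomial (Fin (n + 1)) K) := by
    let b := Module.Basis.ofVectorSpace K (Md (e + 1) x)
    have h1 : ∀ i, ∃ τ : Op R K n, opF τ F = (b i : MvPolynomial (Fin (n + 1)) K) := fun i =>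
      hS.surj _ ((mem_homogeneousSubmodule _ _).1 (b i).2.1)
    choose τ0 hτ0 using h1
    refine ⟨b.constr K τ0, fun g => ?_⟩
    have h2 : S.comp (b.constr K τ0) = (Md (e + 1) x).subtype := by
      refine b.ext fun i => ?_
      rw [LinearMap.comp_apply, Module.Basis.constr_basis, hS', hτ0]
      rfl
    rw [← hS']
    exact LinearMap.congr_fun h2 g
  obtain ⟨c, hc⟩ : ∃ c : Md (e + 1) x →ₗ[K] (Row J → K), ∀ g, c g = colF J z x (T g) := by
    refine ⟨{ toFun := fun g => colF J z x (T g), map_add' := fun g g' => ?_,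
              map_smul' := fun a g => ?_ }, fun τ => rfl⟩
    · funext ρ
      have h := colF_lin J z x (T g) (T g') 1 ρ
      rw [one_smul, one_mul] at h
      rw [map_add, h]
      rfl
    · funext ρ
      have h := colF_lin J z x 0 (T g) a ρ
      have h0 : colF J z x (0 : Op R K n) ρ = 0 := by
        have h2 := colF_lin J z x (0 : Op R K n) 0 1 ρ
        rw [one_smul, one_mul, add_zero] at h2
        linear_combination -h2
      rw [zero_add, h0, zero_add] at h
      rw [map_smul, h]
      rfl
  obtain ⟨ω, hω⟩ := altform c ![colF J z x (D, 0), colX J x] e0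
  -- any choice of the operators
  have hany : ∀ (g : Fin s → Md (e + 1) x) (τ : Fin s → Op R K n),
      (∀ i, opF (τ i) F = ((g i : Md (e + 1) x) : MvPolynomial (Fin (n + 1)) K)) →
      ω g = ((matF J z x D τ).submatrix e0 id).det := by
    intro g τ hτ
    have h1 : ∀ i, ∃ a : K, τ i = T (g i) + a • ((D, 0) : Op R K n) := by
      intro i
      have h2 : opF (τ i - T (g i)) F = 0 := by
        rw [← hS', map_sub, hS', hS', hτ, hT, sub_self]
      obtain ⟨h3, a, h4⟩ := hS.ker _ h2
      refine ⟨a, ?_⟩
      have h5 : τ i - T (g i) = a • ((D, 0) : Op R K n) := by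
        refine Prod.ext ?_ ?_
        · rw [h4]
          rfl
        · rw [h3]
          simp
      rw [← h5, add_sub_cancel]
    choose a ha using h1
    rw [hω, ← Matrix.det_transpose, ← Matrix.det_transpose ((matF J z x D τ).submatrix e0 id)]
    symm
    refine Matrix.det_eq_of_forall_row_eq_smul_add_const (Sum.elim a fun _ => 0) (Sum.inr 0) rfl
      fun i j => ?_
    rcases i with i | t
    · simp only [Matrix.transpose_apply, Matrix.submatrix_apply, matF, Matrix.of_apply, id,
        Sum.elim_inl, Sum.elim_inr]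
      rw [ha, colF_lin, hc]
      rfl
    · simp only [Matrix.transpose_apply, Matrix.submatrix_apply, matF, Matrix.of_apply, id,
        Sum.elim_inr, zero_mul, add_zero]
      rcases (show t = 0 ∨ t = 1 by omega) with rfl | rfl
      · rfl
      · rfl
  refine ⟨ω, ?_, ?_, hany⟩
  · -- nonzero
    obtain ⟨hsur, hli⟩ := hISU R K n e r F D x L hS hxD hU J z hJ hxL
    obtain ⟨w, hw⟩ := complete e0 _ hli
    have h1 : ∀ i, ∃ (τ : Op R K n) (a : K), opF τ F ∈ Md (e + 1) x ∧
      colF J z x τ = w i + a • colX J x := fun i => hsur (w i)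
    choose τ a hτ ha using h1
    have h2 := hany (fun i => ⟨opF (τ i) F, hτ i⟩) τ fun i => rfl
    intro h0
    rw [h0, AlternatingMap.zero_apply] at h2
    refine (det_ne (Sum.elim w ![colF J z x (D, 0), colX J x]) e0).2 hw ?_
    rw [h2, ← Matrix.det_transpose, ← Matrix.det_transpose ((matF J z x D τ).submatrix e0 id)]
    symm
    refine Matrix.det_eq_of_forall_row_eq_smul_add_const (Sum.elim a fun _ => 0) (Sum.inr 1) rfl
      fun i j => ?_
    rcases i with i | t
    · simp only [Matrix.transpose_apply, Matrix.submatrix_apply, matF, Matrix.of_apply, id,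
        Sum.elim_inl, Sum.elim_inr]
      rw [ha]
      rfl
    · simp only [Matrix.transpose_apply, Matrix.submatrix_apply, matF, Matrix.of_apply, id,
        Sum.elim_inr, zero_mul, add_zero]
      rcases (show t = 0 ∨ t = 1 by omega) with rfl | rfl
      · rfl
      · rfl
  · rintro g ⟨i, hi⟩
    obtain ⟨-, -, h3⟩ := hITL R K n e F D x L hS hxD
    have h4 := (h3 r J z hJ hxL (T (g i)) (by rw [hT]; exact (g i).2)).1 (by rw [hT]; exact hi)
    rw [hω]
    by_contra hne
    have h5 := (det_ne (Sum.elim (fun i => c (g i)) ![colF J z x (D, 0), colX J x]) e0).1 hne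
    refine h5.notMem_span_image (s := {Sum.inr 0, Sum.inr 1}) (x := Sum.inl i) (by simp) ?_
    rw [Set.image_pair]
    rw [← hc] at h4
    exact h4

end Pool.Agent.H69.EE
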